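import Pool.Agent.NNr.R15_1_2_5.D0
import Pool.Agent.NNr.R15_1_2_5.D1
import Pool.Agent.NNe.Slots

set_option linter.all false
set_option maxRecDepth 1000000
namespace Pool.Agent.NNr.R15_1_2_5

open Pool.Agent.NNe

def ti0_0 : tileCk (nat_lit 61) (nat_lit 5) (nat_lit 2) (nat_lit 2) (nat_lit 314) (nat_lit 15) (nat_lit 26) ZL0_0 CL0 = true := by decide +kernel
def zl0_0 : zlOK (nat_lit 314) ZL0_0 = true := by decide +kernel
def ti0_1 : tileCk (nat_lit 61) (nat_lit 5) (nat_lit 2) (nat_lit 2) (nat_lit 314) (nat_lit 15) (nat_lit 26) ZL0_1 CL0 = true := by decide +kernel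
def zl0_1 : zlOK (nat_lit 314) ZL0_1 = true := by decide +kernel
def tc0_0 : tiCov (nat_lit 1) (nat_lit 0) ZZ0 C0_0 = true := by decide +kernel
def tc0_1 : tiCov (nat_lit 1) (nat_lit 1) ZZ0 C0_1 = true := by decide +kernel
def tc0_2 : tiCov (nat_lit 1) (nat_lit 2) ZZ0 C0_2 = true := by decide +kernel
def tc0_3 : tiCov (nat_lit 1) (nat_lit 3) ZZ0 C0_3 = true := by decide +kernel
def tc0_4 : tiCov (nat_lit 1) (nat_lit 4) ZZ0 C0_4 = true := by decide +kernel
def tc0_5 : tiCov (nat_lit 1) (nat_lit 5) ZZ0 C0_5 = true := by decide +kernel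
def tc0_6 : tiCov (nat_lit 1) (nat_lit 6) ZZ0 C0_6 = true := by decide +kernel
def tc0_7 : tiCov (nat_lit 1) (nat_lit 7) ZZ0 C0_7 = true := by decide +kernel
def tc0_8 : tiCov (nat_lit 1) (nat_lit 8) ZZ0 C0_8 = true := by decide +kernel
def tc0_9 : tiCov (nat_lit 1) (nat_lit 9) ZZ0 C0_9 = true := by decide +kernel
def tc0_10 : tiCov (nat_lit 1) (nat_lit 10) ZZ0 C0_10 = true := by decide +kernel
def tc0_11 : tiCov (nat_lit 1) (nat_lit 11) ZZ0 C0_11 = true := by decide +kernel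
def tc0_12 : tiCov (nat_lit 1) (nat_lit 12) ZZ0 C0_12 = true := by decide +kernel
def tc0_13 : tiCov (nat_lit 1) (nat_lit 13) ZZ0 C0_13 = true := by decide +kernel
def tc0_14 : tiCov (nat_lit 1) (nat_lit 14) ZZ0 C0_14 = true := by decide +kernel
def tc0_15 : tiCov (nat_lit 1) (nat_lit 15) ZZ0 C0_15 = true := by decide +kernel
def tc0_16 : tiCov (nat_lit 1) (nat_lit 16) ZZ0 C0_16 = true := by decide +kernel
def tc0_17 : tiCov (nat_lit 1) (nat_lit 17) ZZ0 C0_17 = true := by decide +kernel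
def tc0_19 : tiCov (nat_lit 1) (nat_lit 19) ZZ0 C0_19 = true := by decide +kernel
def tc0_20 : tiCov (nat_lit 1) (nat_lit 20) ZZ0 C0_20 = true := by decide +kernel
def tc0_21 : tiCov (nat_lit 1) (nat_lit 21) ZZ0 C0_21 = true := by decide +kernel
def tc0_22 : tiCov (nat_lit 1) (nat_lit 22) ZZ0 C0_22 = true := by decide +kernel
def tc0_23 : tiCov (nat_lit 1) (nat_lit 23) ZZ0 C0_23 = true := by decide +kernel
def tc0_24 : tiCov (nat_lit 1) (nat_lit 24) ZZ0 C0_24 = true := by decide +kernel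
def tc0_25 : tiCov (nat_lit 1) (nat_lit 25) ZZ0 C0_25 = true := by decide +kernel
def wf1_0 : wfC (nat_lit 61) (nat_lit 9) C1_0 = true := by decide +kernel
def rf1_0 : rfCk (nat_lit 61) (nat_lit 5) (nat_lit 61) (nat_lit 9) (nat_lit 9) (nat_lit 0) (nat_lit 0) TL1 CL0 CL1 = true := by decide +kernel
def st1_0_0 : starCk (nat_lit 61) (nat_lit 9) (nat_lit 1) (nat_lit 4) (nat_lit 18) (nat_lit 34) (nat_lit 256) C1_0 = true := by decide +kernel
def sc1_0 : stCov (nat_lit 2) (nat_lit 34) (Rl.cons (nat_lit 34) (nat_lit 18) Rl.nil) C1_0 = true := by decide +kernel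
def wf1_1 : wfC (nat_lit 61) (nat_lit 9) C1_1 = true := by decide +kernel
def rf1_1 : rfCk (nat_lit 61) (nat_lit 5) (nat_lit 61) (nat_lit 9) (nat_lit 9) (nat_lit 0) (nat_lit 1) TL1 CL0 CL1 = true := by decide +kernel
def st1_1_0 : starCk (nat_lit 61) (nat_lit 9) (nat_lit 1) (nat_lit 4) (nat_lit 6) (nat_lit 0) (nat_lit 16) C1_1 = true := by decide +kernel
def sc1_1 : stCov (nat_lit 1) (nat_lit 0) (Rl.cons (nat_lit 0) (nat_lit 6) Rl.nil) C1_1 = true := by decide +kernel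
def wf1_2 : wfC (nat_lit 61) (nat_lit 9) C1_2 = true := by decide +kernel
def rf1_2 : rfCk (nat_lit 61) (nat_lit 5) (nat_lit 61) (nat_lit 9) (nat_lit 9) (nat_lit 0) (nat_lit 2) TL1 CL0 CL1 = true := by decide +kernel
def st1_2_0 : starCk (nat_lit 61) (nat_lit 9) (nat_lit 1) (nat_lit 4) (nat_lit 16) (nat_lit 11) (nat_lit 1) C1_2 = true := by decide +kernel
def sc1_2 : stCov (nat_lit 0) (nat_lit 11) (Rl.cons (nat_lit 11) (nat_lit 16) Rl.nil) C1_2 = true := by decide +kernel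
def wf1_3 : wfC (nat_lit 61) (nat_lit 9) C1_3 = true := by decide +kernel
def rf1_3 : rfCk (nat_lit 61) (nat_lit 5) (nat_lit 61) (nat_lit 9) (nat_lit 9) (nat_lit 0) (nat_lit 3) TL1 CL0 CL1 = true := by decide +kernel
def st1_3_0 : starCk (nat_lit 61) (nat_lit 9) (nat_lit 1) (nat_lit 4) (nat_lit 14) (nat_lit 17) (nat_lit 1) C1_3 = true := by decide +kernel
def sc1_3 : stCov (nat_lit 0) (nat_lit 17) (Rl.cons (nat_lit 17) (nat_lit 14) Rl.nil) C1_3 = true := by decide +kernel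
def wf1_4 : wfC (nat_lit 61) (nat_lit 9) C1_4 = true := by decide +kernel
def rf1_4 : rfCk (nat_lit 61) (nat_lit 5) (nat_lit 61) (nat_lit 9) (nat_lit 9) (nat_lit 0) (nat_lit 4) TL1 CL0 CL1 = true := by decide +kernel
def st1_4_0 : starCk (nat_lit 61) (nat_lit 9) (nat_lit 1) (nat_lit 4) (nat_lit 23) (nat_lit 35) (nat_lit 1) C1_4 = true := by decide +kernel
def sc1_4 : stCov (nat_lit 0) (nat_lit 35) (Rl.cons (nat_lit 35) (nat_lit 23) Rl.nil) C1_4 = true := by decide +kernel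
def wf1_5 : wfC (nat_lit 61) (nat_lit 9) C1_5 = true := by decide +kernel
def rf1_5 : rfCk (nat_lit 61) (nat_lit 5) (nat_lit 61) (nat_lit 9) (nat_lit 9) (nat_lit 0) (nat_lit 5) TL1 CL0 CL1 = true := by decide +kernel
def st1_5_0 : starCk (nat_lit 61) (nat_lit 9) (nat_lit 1) (nat_lit 4) (nat_lit 4) (nat_lit 9) (nat_lit 1) C1_5 = true := by decide +kernel
def sc1_5 : stCov (nat_lit 0) (nat_lit 9) (Rl.cons (nat_lit 9) (nat_lit 4) Rl.nil) C1_5 = true := by decide +kernel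
def wf1_6 : wfC (nat_lit 61) (nat_lit 9) C1_6 = true := by decide +kernel
def rf1_6 : rfCk (nat_lit 61) (nat_lit 5) (nat_lit 61) (nat_lit 9) (nat_lit 9) (nat_lit 0) (nat_lit 6) TL1 CL0 CL1 = true := by decide +kernel
def st1_6_0 : starCk (nat_lit 61) (nat_lit 9) (nat_lit 1) (nat_lit 4) (nat_lit 17) (nat_lit 85) (nat_lit 256) C1_6 = true := by decide +kernel
def sc1_6 : stCov (nat_lit 2) (nat_lit 85) (Rl.cons (nat_lit 85) (nat_lit 17) Rl.nil) C1_6 = true := by decide +kernel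
def wf1_7 : wfC (nat_lit 61) (nat_lit 9) C1_7 = true := by decide +kernel
def rf1_7 : rfCk (nat_lit 61) (nat_lit 5) (nat_lit 61) (nat_lit 9) (nat_lit 9) (nat_lit 0) (nat_lit 7) TL1 CL0 CL1 = true := by decide +kernel
def st1_7_0 : starCk (nat_lit 61) (nat_lit 9) (nat_lit 1) (nat_lit 4) (nat_lit 22) (nat_lit 57) (nat_lit 16) C1_7 = true := by decide +kernel
def sc1_7 : stCov (nat_lit 1) (nat_lit 57) (Rl.cons (nat_lit 57) (nat_lit 22) Rl.nil) C1_7 = true := by decide +kernel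
def wf1_8 : wfC (nat_lit 61) (nat_lit 9) C1_8 = true := by decide +kernel
def rf1_8 : rfCk (nat_lit 61) (nat_lit 5) (nat_lit 61) (nat_lit 9) (nat_lit 9) (nat_lit 0) (nat_lit 8) TL1 CL0 CL1 = true := by decide +kernel
def st1_8_0 : starCk (nat_lit 61) (nat_lit 9) (nat_lit 1) (nat_lit 4) (nat_lit 7) (nat_lit 10) (nat_lit 1) C1_8 = true := by decide +kernel
def sc1_8 : stCov (nat_lit 0) (nat_lit 10) (Rl.cons (nat_lit 10) (nat_lit 7) Rl.nil) C1_8 = true := by decide +kernel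
def wf1_9 : wfC (nat_lit 61) (nat_lit 9) C1_9 = true := by decide +kernel
def rf1_9 : rfCk (nat_lit 61) (nat_lit 5) (nat_lit 61) (nat_lit 9) (nat_lit 9) (nat_lit 0) (nat_lit 9) TL1 CL0 CL1 = true := by decide +kernel
def st1_9_0 : starCk (nat_lit 61) (nat_lit 9) (nat_lit 1) (nat_lit 4) (nat_lit 10) (nat_lit 65) (nat_lit 256) C1_9 = true := by decide +kernel
def sc1_9 : stCov (nat_lit 2) (nat_lit 65) (Rl.cons (nat_lit 65) (nat_lit 10) Rl.nil) C1_9 = true := by decide +kernel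
def wf1_10 : wfC (nat_lit 61) (nat_lit 9) C1_10 = true := by decide +kernel
def rf1_10 : rfCk (nat_lit 61) (nat_lit 5) (nat_lit 61) (nat_lit 9) (nat_lit 9) (nat_lit 0) (nat_lit 10) TL1 CL0 CL1 = true := by decide +kernel
def st1_10_0 : starCk (nat_lit 61) (nat_lit 9) (nat_lit 1) (nat_lit 4) (nat_lit 18) (nat_lit 33) (nat_lit 256) C1_10 = true := by decide +kernel
def sc1_10 : stCov (nat_lit 2) (nat_lit 33) (Rl.cons (nat_lit 33) (nat_lit 18) Rl.nil) C1_10 = true := by decide +kernel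
def wf1_11 : wfC (nat_lit 61) (nat_lit 9) C1_11 = true := by decide +kernel
def rf1_11 : rfCk (nat_lit 61) (nat_lit 5) (nat_lit 61) (nat_lit 9) (nat_lit 9) (nat_lit 0) (nat_lit 11) TL1 CL0 CL1 = true := by decide +kernel
def st1_11_0 : starCk (nat_lit 61) (nat_lit 9) (nat_lit 1) (nat_lit 4) (nat_lit 4) (nat_lit 7) (nat_lit 1) C1_11 = true := by decide +kernel
def sc1_11 : stCov (nat_lit 0) (nat_lit 7) (Rl.cons (nat_lit 7) (nat_lit 4) Rl.nil) C1_11 = true := by decide +kernel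
def wf1_12 : wfC (nat_lit 61) (nat_lit 9) C1_12 = true := by decide +kernel
def rf1_12 : rfCk (nat_lit 61) (nat_lit 5) (nat_lit 61) (nat_lit 9) (nat_lit 9) (nat_lit 0) (nat_lit 12) TL1 CL0 CL1 = true := by decide +kernel
def st1_12_0 : starCk (nat_lit 61) (nat_lit 9) (nat_lit 1) (nat_lit 4) (nat_lit 6) (nat_lit 46) (nat_lit 256) C1_12 = true := by decide +kernel
def sc1_12 : stCov (nat_lit 2) (nat_lit 46) (Rl.cons (nat_lit 46) (nat_lit 6) Rl.nil) C1_12 = true := by decide +kernel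
def wf1_14 : wfC (nat_lit 61) (nat_lit 9) C1_14 = true := by decide +kernel
def rf1_14 : rfCk (nat_lit 61) (nat_lit 5) (nat_lit 61) (nat_lit 9) (nat_lit 9) (nat_lit 0) (nat_lit 14) TL1 CL0 CL1 = true := by decide +kernel
def st1_14_0 : starCk (nat_lit 61) (nat_lit 9) (nat_lit 1) (nat_lit 4) (nat_lit 3) (nat_lit 19) (nat_lit 256) C1_14 = true := by decide +kernel
def sc1_14 : stCov (nat_lit 2) (nat_lit 19) (Rl.cons (nat_lit 19) (nat_lit 3) Rl.nil) C1_14 = true := by decide +kernel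
def wf1_19 : wfC (nat_lit 61) (nat_lit 9) C1_19 = true := by decide +kernel
def rf1_19 : rfCk (nat_lit 61) (nat_lit 5) (nat_lit 61) (nat_lit 9) (nat_lit 9) (nat_lit 0) (nat_lit 19) TL1 CL0 CL1 = true := by decide +kernel
def st1_19_0 : starCk (nat_lit 61) (nat_lit 9) (nat_lit 1) (nat_lit 4) (nat_lit 55) (nat_lit 66) (nat_lit 4096) C1_19 = true := by decide +kernel
def sc1_19 : stCov (nat_lit 3) (nat_lit 66) (Rl.cons (nat_lit 66) (nat_lit 55) Rl.nil) C1_19 = true := by decide +kernel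
def wf1_20 : wfC (nat_lit 61) (nat_lit 9) C1_20 = true := by decide +kernel
def rf1_20 : rfCk (nat_lit 61) (nat_lit 5) (nat_lit 61) (nat_lit 9) (nat_lit 9) (nat_lit 0) (nat_lit 20) TL1 CL0 CL1 = true := by decide +kernel
def st1_20_0 : starCk (nat_lit 61) (nat_lit 9) (nat_lit 1) (nat_lit 4) (nat_lit 42) (nat_lit 107) (nat_lit 16) C1_20 = true := by decide +kernel
def sc1_20 : stCov (nat_lit 1) (nat_lit 107) (Rl.cons (nat_lit 107) (nat_lit 42) Rl.nil) C1_20 = true := by decide +kernel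
def wf1_21 : wfC (nat_lit 61) (nat_lit 9) C1_21 = true := by decide +kernel
def rf1_21 : rfCk (nat_lit 61) (nat_lit 5) (nat_lit 61) (nat_lit 9) (nat_lit 9) (nat_lit 0) (nat_lit 21) TL1 CL0 CL1 = true := by decide +kernel

end Pool.Agent.NNr.R15_1_2_5
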