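import Pool.Agent.NNe.Chk

set_option linter.all false
set_option maxRecDepth 1000000
namespace Pool.Agent.NNr.R15_1_2_5

open Pool.Agent.NNe

noncomputable def C2_0 : Cd := (Cd.mk (nat_lit 0) (nat_lit 5) (nat_lit 560) (nat_lit 0) (nat_lit 0) (nat_lit 0) (nat_lit 0) Sl.nil)
noncomputable def C2_1 : Cd := (Cd.mk (nat_lit 0) (nat_lit 8) (nat_lit 128) (nat_lit 0) (nat_lit 0) (nat_lit 0) (nat_lit 0) Sl.nil)
noncomputable def C2_2 : Cd := (Cd.mk (nat_lit 0) (nat_lit 4) (nat_lit 769) (nat_lit 0) (nat_lit 0) (nat_lit 0) (nat_lit 0) Sl.nil)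
noncomputable def C2_3 : Cd := (Cd.mk (nat_lit 0) (nat_lit 7) (nat_lit 337) (nat_lit 0) (nat_lit 0) (nat_lit 0) (nat_lit 0) Sl.nil)
noncomputable def C2_4 : Cd := (Cd.mk (nat_lit 0) (nat_lit 6) (nat_lit 546) (nat_lit 0) (nat_lit 0) (nat_lit 0) (nat_lit 0) Sl.nil)
noncomputable def C2_5 : Cd := (Cd.mk (nat_lit 0) (nat_lit 9) (nat_lit 114) (nat_lit 0) (nat_lit 0) (nat_lit 0) (nat_lit 0) Sl.nil)
noncomputable def C2_6 : Cd := (Cd.mk (nat_lit 0) (nat_lit 8) (nat_lit 323) (nat_lit 0) (nat_lit 0) (nat_lit 0) (nat_lit 0) Sl.nil)
noncomputable def C2_7 : Cd := (Cd.mk (nat_lit 0) (nat_lit 7) (nat_lit 532) (nat_lit 0) (nat_lit 0) (nat_lit 0) (nat_lit 0) Sl.nil)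
noncomputable def C2_8 : Cd := (Cd.mk (nat_lit 0) (nat_lit 10) (nat_lit 100) (nat_lit 0) (nat_lit 0) (nat_lit 0) (nat_lit 0) Sl.nil)
noncomputable def C2_9 : Cd := (Cd.mk (nat_lit 0) (nat_lit 9) (nat_lit 309) (nat_lit 0) (nat_lit 0) (nat_lit 0) (nat_lit 0) Sl.nil)
noncomputable def C2_10 : Cd := (Cd.mk (nat_lit 0) (nat_lit 8) (nat_lit 518) (nat_lit 0) (nat_lit 0) (nat_lit 0) (nat_lit 0) Sl.nil)
noncomputable def C2_11 : Cd := (Cd.mk (nat_lit 0) (nat_lit 11) (nat_lit 86) (nat_lit 0) (nat_lit 0) (nat_lit 0) (nat_lit 0) Sl.nil)
noncomputable def C2_12 : Cd := (Cd.mk (nat_lit 0) (nat_lit 10) (nat_lit 295) (nat_lit 0) (nat_lit 0) (nat_lit 0) (nat_lit 0) Sl.nil)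
noncomputable def C2_13 : Cd := (Cd.mk (nat_lit 0) (nat_lit 12) (nat_lit 72) (nat_lit 0) (nat_lit 0) (nat_lit 0) (nat_lit 0) Sl.nil)
noncomputable def C2_14 : Cd := (Cd.mk (nat_lit 0) (nat_lit 11) (nat_lit 281) (nat_lit 0) (nat_lit 0) (nat_lit 0) (nat_lit 0) Sl.nil)
noncomputable def C2_15 : Cd := (Cd.mk (nat_lit 0) (nat_lit 13) (nat_lit 58) (nat_lit 0) (nat_lit 0) (nat_lit 0) (nat_lit 0) Sl.nil)
noncomputable def C2_16 : Cd := (Cd.mk (nat_lit 0) (nat_lit 12) (nat_lit 267) (nat_lit 0) (nat_lit 0) (nat_lit 0) (nat_lit 0) Sl.nil)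
noncomputable def C2_17 : Cd := (Cd.mk (nat_lit 0) (nat_lit 14) (nat_lit 44) (nat_lit 0) (nat_lit 0) (nat_lit 0) (nat_lit 0) Sl.nil)
noncomputable def C2_18 : Cd := (Cd.mk (nat_lit 0) (nat_lit 15) (nat_lit 30) (nat_lit 0) (nat_lit 0) (nat_lit 0) (nat_lit 0) Sl.nil)
noncomputable def C2_19 : Cd := (Cd.mk (nat_lit 0) (nat_lit 5) (nat_lit 4160) (nat_lit 0) (nat_lit 0) (nat_lit 0) (nat_lit 0) Sl.nil)
noncomputable def SI2_20 : Nat := (nat_lit 0x80200400)
noncomputable def SW2_20 : Nat := (nat_lit 0x8000006002)
noncomputable def RV2_20 : Nat := (nat_lit 0x8a80010a80000a80030a8002)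
noncomputable def CO2_20 : Nat := (nat_lit 0x311d40300d4013354003314)
noncomputable def Y2_20_2_2 : Nat := (nat_lit 0x10)
noncomputable def C2_20 : Cd := (Cd.mk (nat_lit 4) (nat_lit 4) (nat_lit 4369) SI2_20 SW2_20 RV2_20 CO2_20 (Sl.cons (Sd.mk (nat_lit 0) (nat_lit 0) (nat_lit 0) (nat_lit 1) (Sb.cons (nat_lit 12) (nat_lit 0) (nat_lit 1) Sb.nil) Bl.nil) (Sl.cons (Sd.mk (nat_lit 4) (nat_lit 4) (nat_lit 1) (nat_lit 1) (Sb.cons (nat_lit 12) (nat_lit 0) (nat_lit 1) Sb.nil) Bl.nil) (Sl.cons (Sd.mk (nat_lit 12) (nat_lit 12) (nat_lit 2) (nat_lit 2) (Sb.cons (nat_lit 0) (nat_lit 0) (nat_lit 1) (Sb.cons (nat_lit 4) (nat_lit 1) (nat_lit 1) Sb.nil)) (Bl.r Y2_20_2_2 (nat_lit 2) (Bl.c Y2_20_2_2 (nat_lit 4) (nat_lit 2) Bl.nil))) Sl.nil))))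
noncomputable def C2_21 : Cd := (Cd.mk (nat_lit 0) (nat_lit 6) (nat_lit 4146) (nat_lit 0) (nat_lit 0) (nat_lit 0) (nat_lit 0) Sl.nil)
noncomputable def C2_22 : Cd := (Cd.mk (nat_lit 0) (nat_lit 5) (nat_lit 4355) (nat_lit 0) (nat_lit 0) (nat_lit 0) (nat_lit 0) Sl.nil)
noncomputable def C2_23 : Cd := (Cd.mk (nat_lit 0) (nat_lit 7) (nat_lit 4132) (nat_lit 0) (nat_lit 0) (nat_lit 0) (nat_lit 0) Sl.nil)
noncomputable def C2_24 : Cd := (Cd.mk (nat_lit 0) (nat_lit 8) (nat_lit 4118) (nat_lit 0) (nat_lit 0) (nat_lit 0) (nat_lit 0) Sl.nil)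
noncomputable def C2_25 : Cd := (Cd.mk (nat_lit 0) (nat_lit 9) (nat_lit 4104) (nat_lit 0) (nat_lit 0) (nat_lit 0) (nat_lit 0) Sl.nil)
noncomputable def CL2 : Cl := (Cl.cons C2_0 (Cl.cons C2_1 (Cl.cons C2_2 (Cl.cons C2_3 (Cl.cons C2_4 (Cl.cons C2_5 (Cl.cons C2_6 (Cl.cons C2_7 (Cl.cons C2_8 (Cl.cons C2_9 (Cl.cons C2_10 (Cl.cons C2_11 (Cl.cons C2_12 (Cl.cons C2_13 (Cl.cons C2_14 (Cl.cons C2_15 (Cl.cons C2_16 (Cl.cons C2_17 (Cl.cons C2_18 (Cl.cons C2_19 (Cl.cons C2_20 (Cl.cons C2_21 (Cl.cons C2_22 (Cl.cons C2_23 (Cl.cons C2_24 (Cl.cons C2_25 Cl.nil))))))))))))))))))))))))))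
noncomputable def AL2_0 : Nat := (nat_lit 0)
noncomputable def A42_0 : Nat := (nat_lit 0)
noncomputable def IX2_0 : Nat := (nat_lit 0)
noncomputable def OL2_0 : Nat := (nat_lit 0)
noncomputable def AL2_1 : Nat := (nat_lit 0x94)
noncomputable def A42_1 : Nat := (nat_lit 0)
noncomputable def IX2_1 : Nat := (nat_lit 0)
noncomputable def OL2_1 : Nat := (nat_lit 0)
noncomputable def AL2_2 : Nat := (nat_lit 0x20000200001000011000002)
noncomputable def A42_2 : Nat := (nat_lit 0)
noncomputable def IX2_2 : Nat := (nat_lit 0)
noncomputable def OL2_2 : Nat := (nat_lit 0)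
noncomputable def AL2_3 : Nat := (nat_lit 0)
noncomputable def A42_3 : Nat := (nat_lit 0)
noncomputable def IX2_3 : Nat := (nat_lit 0)
noncomputable def OL2_3 : Nat := (nat_lit 0)
noncomputable def AL2_4 : Nat := (nat_lit 0)
noncomputable def A42_4 : Nat := (nat_lit 0)
noncomputable def IX2_4 : Nat := (nat_lit 0)
noncomputable def OL2_4 : Nat := (nat_lit 0)
noncomputable def AL2_5 : Nat := (nat_lit 0)
noncomputable def A42_5 : Nat := (nat_lit 0)
noncomputable def IX2_5 : Nat := (nat_lit 0)
noncomputable def OL2_5 : Nat := (nat_lit 0)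
noncomputable def AL2_6 : Nat := (nat_lit 0)
noncomputable def A42_6 : Nat := (nat_lit 0)
noncomputable def IX2_6 : Nat := (nat_lit 0)
noncomputable def OL2_6 : Nat := (nat_lit 0)
noncomputable def AL2_7 : Nat := (nat_lit 0)
noncomputable def A42_7 : Nat := (nat_lit 0)
noncomputable def IX2_7 : Nat := (nat_lit 0)
noncomputable def OL2_7 : Nat := (nat_lit 0)
noncomputable def AL2_8 : Nat := (nat_lit 0x84201100)
noncomputable def A42_8 : Nat := (nat_lit 0)
noncomputable def IX2_8 : Nat := (nat_lit 0)
noncomputable def OL2_8 : Nat := (nat_lit 0)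
noncomputable def AL2_9 : Nat := (nat_lit 0)
noncomputable def A42_9 : Nat := (nat_lit 0)
noncomputable def IX2_9 : Nat := (nat_lit 0)
noncomputable def OL2_9 : Nat := (nat_lit 0)
noncomputable def AL2_10 : Nat := (nat_lit 0)
noncomputable def A42_10 : Nat := (nat_lit 0)
noncomputable def IX2_10 : Nat := (nat_lit 0)
noncomputable def OL2_10 : Nat := (nat_lit 0)
noncomputable def AL2_11 : Nat := (nat_lit 0)
noncomputable def A42_11 : Nat := (nat_lit 0)
noncomputable def IX2_11 : Nat := (nat_lit 0)
noncomputable def OL2_11 : Nat := (nat_lit 0)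
noncomputable def AL2_12 : Nat := (nat_lit 0)
noncomputable def A42_12 : Nat := (nat_lit 0)
noncomputable def IX2_12 : Nat := (nat_lit 0)
noncomputable def OL2_12 : Nat := (nat_lit 0)
noncomputable def AL2_13 : Nat := (nat_lit 0)
noncomputable def A42_13 : Nat := (nat_lit 0)
noncomputable def IX2_13 : Nat := (nat_lit 0)
noncomputable def OL2_13 : Nat := (nat_lit 0)
noncomputable def AL2_14 : Nat := (nat_lit 0)
noncomputable def A42_14 : Nat := (nat_lit 0)
noncomputable def IX2_14 : Nat := (nat_lit 0)
noncomputable def OL2_14 : Nat := (nat_lit 0)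
noncomputable def AL2_15 : Nat := (nat_lit 0)
noncomputable def A42_15 : Nat := (nat_lit 0)
noncomputable def IX2_15 : Nat := (nat_lit 0)
noncomputable def OL2_15 : Nat := (nat_lit 0)
noncomputable def AL2_16 : Nat := (nat_lit 0)
noncomputable def A42_16 : Nat := (nat_lit 0)
noncomputable def IX2_16 : Nat := (nat_lit 0)
noncomputable def OL2_16 : Nat := (nat_lit 0)
noncomputable def AL2_17 : Nat := (nat_lit 0)
noncomputable def A42_17 : Nat := (nat_lit 0)
noncomputable def IX2_17 : Nat := (nat_lit 0)
noncomputable def OL2_17 : Nat := (nat_lit 0)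
noncomputable def AL2_18 : Nat := (nat_lit 0)
noncomputable def A42_18 : Nat := (nat_lit 0)
noncomputable def IX2_18 : Nat := (nat_lit 0)
noncomputable def OL2_18 : Nat := (nat_lit 0)
noncomputable def AL2_19 : Nat := (nat_lit 0)
noncomputable def A42_19 : Nat := (nat_lit 0)
noncomputable def IX2_19 : Nat := (nat_lit 0)
noncomputable def OL2_19 : Nat := (nat_lit 0)
noncomputable def AL2_20 : Nat := (nat_lit 0x10000000008010000000000000000022000000000000000000a000000000000000000005000001000000000000000010080000000500000)
noncomputable def A42_20 : Nat := (nat_lit 0x100000000000100000000000000000000000000000000000000000000000000000000000000001000000000000000000000000000400000)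
noncomputable def IX2_20 : Nat := (nat_lit 0x3000000000000000000000000000000000000000000000000000000000000000000000000000000000000000000000000000000000000000000000000000000000000000000000000000000000000000000000000000000000000000000000000000000000000000000000000000000000000000000000000000000000000000000000000000000000000000000000000000000000000000000000000000000000000000000000000000000000000000000000000000000000000000000000000000000000000000000000000000000000000000000000000000000000000000000000000000000000000000000000000000000000000000000000000000000000000000000000000000000000000000000000000000000000000000000000000000000000000000000000000000000000000000000000002000000000000000000000000000000000000000000000000000000000000000000000000000000000000000000000000000000000000000000000000000000000000000000000000000000000000000000000000000000000000000000000000000000000000000000000000000000000000000000000000000000000000000000000000000000000000000000000000000000000000000000000000000000000000000000000000000000000000000000000000000000000000000000000000000000000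00000000000000000000000000000000000000000000000000000000000000000000000000000000000000000000000000000000000000000000000000000000000000000000000000000000000000000000000000000000000000000000000000000000000000000000000000000000000000000000000000000000000000000000000000000000000000000000000000000000000000000000000000000000000000000000000000000000000000000000000000000000000000000000000000000000000000000000000000000000000000000000000000000000000000000000000000000000000000000000000000000000000000000000000000000000000000000000000000000000000000000000000000000000000000000000000000000000000000000000000000000000000000000000000000000000000000000000000000000000000000000000000000000000000000000000000000000000000000000000000000000000000000000000000000000000000000000000000000000000000000000000000000000000000000000000000000000000000000000000000000000000000000000000000000000000000000000000000000000000000000000000000000000000000000000000000000000000000000000000000000000000000000000000000000000000000000000000000000000000000000000000000000000000000000000000000000000000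00000000000000000000000000000000000000000000000000000000000000000000000000000000000000000000000000000000000000000000000000000000000000000000000000000000000000000000000000000000000000000000000000000000000000000000000000000000000000000000000000000000000000000000000000000000000000000000000000000000000000000000000000000000000000000000000000000000000000000000000000000000000000000000000000000000000000000000000000000000000000000000000000000000000000000000000000000000000000000000000000000000000000000000000000000000000000000000000000000000000000000000000000000000000000000000000000000000000000000000000000000000000000000000000000000000000000000000000000000000000000000000000000000000000000000000000000000000000000000000000000000000000000000000000000000000000000000000000000000000000000000000000000000000000000000000000000000000000000000000000000000000000000000000000000000000000000000000000000000000000000000000000000000000000000000000000000000000000000000000000000000000000000000000000000000000000000000000000000000000000000000000000000000000000000000000000000000000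00000000000000000000000000000000000000000000000000000000000000000000000000000000000000000000000000000000000000000000000000000000000000000000000000000000000000000000000000000000000000000000000000000000000000000000000000000000000000000000000000000000000000000000000000000000000000000000000000000000000000000000000000000000000000000000000000000000000000000000000000000000000000000000000000000000000000000000000000000000000000000000000000000000000000000000000000000000000000000000000000000000000000000000000000000000000000000000000000000000000000000000000000000000000000000000000000000000000000000000000000000000000000000000000000000000000000000000000000000000000000000000000000000000000000000000000000000000000000000000000000000000000000000000000000000000000000000000000000000000000000000000000000000000000000000000000000000000000000000000000000000000000000000010000000000000000000000000000000000000000000000000000000000000000000000000000000000000000000000000000000000000000000000000000000000000000000000000000000000000000000000000000000000000000000000000000000000000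00000000000000000000000000000000000000000000000000000000000000000000000000000000000000000000000000000000000000000000000000000000000000000000000000000000000000000000000000000000000000000000000000000000000000000000000000000000000000000000000000000000000000000000000000000000000000000000000000000000000000000000000000000000000000000000000000000000000000000000000000000000000000000000000000000000000000000000000000000000000000000000000000000000000000000000000000000000000000000000000000000000000000000000000000000000000000000000000000000000000000000000000000000000000000000000000000000000000000000000000000000000000000000000000000000000000000000000000000000000000000000000000000000000000000000000000000000000000000000000000000000000000000000000000000000000000000000000000000000000000000000000000000000000000000000000000000000000000000000000000000000000000000000000000000000000000000000000000000000000000000000000000000000000000000000000000000000000000000000000000000000000000000000000000000000000000000000000000000000000000000000000000000000000000000000000000000000000000000000000000000000000000000000000000000000000000000000000000000000000000000000000000000000000000000000000000000000000000000000000000000000000000000000000000000000000000000000000000000000000000000000000000000000000000000000000000000000000000000000000000000000000000000000000000000000000000000000000000000000000000000000000000000000000000000000000000000000000000000000000000000000000000000000000000000000000000000000000000000000000000000000000000)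
noncomputable def OL2_20 : Nat := (nat_lit 0xdc018801080058)
noncomputable def AL2_21 : Nat := (nat_lit 0)
noncomputable def A42_21 : Nat := (nat_lit 0)
noncomputable def IX2_21 : Nat := (nat_lit 0)
noncomputable def OL2_21 : Nat := (nat_lit 0)
noncomputable def AL2_22 : Nat := (nat_lit 0)
noncomputable def A42_22 : Nat := (nat_lit 0)
noncomputable def IX2_22 : Nat := (nat_lit 0)
noncomputable def OL2_22 : Nat := (nat_lit 0)
noncomputable def AL2_23 : Nat := (nat_lit 0)
noncomputable def A42_23 : Nat := (nat_lit 0)
noncomputable def IX2_23 : Nat := (nat_lit 0)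
noncomputable def OL2_23 : Nat := (nat_lit 0)
noncomputable def AL2_24 : Nat := (nat_lit 0)
noncomputable def A42_24 : Nat := (nat_lit 0)
noncomputable def IX2_24 : Nat := (nat_lit 0)
noncomputable def OL2_24 : Nat := (nat_lit 0)
noncomputable def AL2_25 : Nat := (nat_lit 0)
noncomputable def A42_25 : Nat := (nat_lit 0)
noncomputable def IX2_25 : Nat := (nat_lit 0)
noncomputable def OL2_25 : Nat := (nat_lit 0)
noncomputable def TL2 : Tl := (Tl.cons (Tr.mk AL2_0 A42_0 IX2_0 OL2_0) (Tl.cons (Tr.mk AL2_1 A42_1 IX2_1 OL2_1) (Tl.cons (Tr.mk AL2_2 A42_2 IX2_2 OL2_2) (Tl.cons (Tr.mk AL2_3 A42_3 IX2_3 OL2_3) (Tl.cons (Tr.mk AL2_4 A42_4 IX2_4 OL2_4) (Tl.cons (Tr.mk AL2_5 A42_5 IX2_5 OL2_5) (Tl.cons (Tr.mk AL2_6 A42_6 IX2_6 OL2_6) (Tl.cons (Tr.mk AL2_7 A42_7 IX2_7 OL2_7) (Tl.cons (Tr.mk AL2_8 A42_8 IX2_8 OL2_8) (Tl.cons (Tr.mk AL2_9 A42_9 IX2_9 OL2_9) (Tl.cons (Tr.mk AL2_10 A42_10 IX2_10 OL2_10) (Tl.cons (Tr.mk AL2_11 A42_11 IX2_11 OL2_11) (Tl.cons (Tr.mk AL2_12 A42_12 IX2_12 OL2_12) (Tl.cons (Tr.mk AL2_13 A42_13 IX2_13 OL2_13) (Tl.cons (Tr.mk AL2_14 A42_14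 IX2_14 OL2_14) (Tl.cons (Tr.mk AL2_15 A42_15 IX2_15 OL2_15) (Tl.cons (Tr.mk AL2_16 A42_16 IX2_16 OL2_16) (Tl.cons (Tr.mk AL2_17 A42_17 IX2_17 OL2_17) (Tl.cons (Tr.mk AL2_18 A42_18 IX2_18 OL2_18) (Tl.cons (Tr.mk AL2_19 A42_19 IX2_19 OL2_19) (Tl.cons (Tr.mk AL2_20 A42_20 IX2_20 OL2_20) (Tl.cons (Tr.mk AL2_21 A42_21 IX2_21 OL2_21) (Tl.cons (Tr.mk AL2_22 A42_22 IX2_22 OL2_22) (Tl.cons (Tr.mk AL2_23 A42_23 IX2_23 OL2_23) (Tl.cons (Tr.mk AL2_24 A42_24 IX2_24 OL2_24) (Tl.cons (Tr.mk AL2_25 A42_25 IX2_25 OL2_25) Tl.nil))))))))))))))))))))))))))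
noncomputable def ZL2_0 : Zl := (Zl.cons (nat_lit 0) (nat_lit 0) (nat_lit 0) (Zl.cons (nat_lit 0) (nat_lit 0) (nat_lit 0) (Zl.cons (nat_lit 0) (nat_lit 0) (nat_lit 0) (Zl.cons (nat_lit 0) (nat_lit 0) (nat_lit 0) (Zl.cons (nat_lit 0) (nat_lit 0) (nat_lit 0) (Zl.cons (nat_lit 0) (nat_lit 0) (nat_lit 0) (Zl.cons (nat_lit 0) (nat_lit 0) (nat_lit 0) (Zl.cons (nat_lit 0) (nat_lit 0) (nat_lit 0) (Zl.cons (nat_lit 0) (nat_lit 0) (nat_lit 0) (Zl.cons (nat_lit 0) (nat_lit 0) (nat_lit 0) (Zl.cons (nat_lit 0) (nat_lit 0) (nat_lit 0) (Zl.cons (nat_lit 0) (nat_lit 0) (nat_lit 0) (Zl.cons (nat_lit 0) (nat_lit 0) (nat_lit 0) (Zl.cons (nat_lit 0) (nat_lit 0) (nat_lit 0) (Zl.cons (nat_lit 0) (nat_lit 0) (nat_lit 0) (Zl.cons (nat_lit 0) (nat_lit 0) (nat_lit 0) (Zl.cons (nat_lit 0) (nat_lit 0) (nat_lit 0) (Zl.cons (nat_lit 0) (nat_lit 0) (nat_lit 0) (Zl.cons (nat_lit 0) (nat_lit 0) (nat_lit 0) (Zl.cons (nat_lit 0) (nat_lit 0) (nat_lit 0) (Zl.cons (nat_lit 1) (nat_lit 0) (nat_lit 1) (Zl.cons (nat_lit 0) (nat_lit 0) (nat_lit 0) (Zl.cons (nat_lit 0) (nat_lit 0) (nat_lit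 0) (Zl.cons (nat_lit 0) (nat_lit 0) (nat_lit 0) (Zl.cons (nat_lit 0) (nat_lit 0) (nat_lit 0) (Zl.cons (nat_lit 0) (nat_lit 0) (nat_lit 0) Zl.nil))))))))))))))))))))))))))
noncomputable def ZZ2 : ZZ := (ZZ.cons ZL2_0 ZZ.nil)

end Pool.Agent.NNr.R15_1_2_5
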